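import Pool.Agent.U151.UBFinal

set_option autoImplicit false

/-!
# Mean occupation time of the origin at criticality for `U`-bootstrap percolation on `ℤ²`

For every subcritical update family `U` with `ℙ_{p_c}([A] = ℤ²) = 1`, the mean occupation time
`𝔼_{p_c} T` is finite if and only if `p_c(U) = 1` (and then `T = 0` almost surely). In other words,
`𝔼_{p_c} T = ∞` as soon as the phase transition is not the degenerate one.

Idea of the proof. Let `τ_t = ℙ_p(0 ∉ A_t)`. If some rule `X` lies in an open half-plane, then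
there is a set of `O(t)` sites at distance of order `t` from the origin such that, if all of them are
infected at time `t`, then the origin is infected at time `C t`. Hence `0 ∉ A_{C t}` requires that
`0 ∉ A_t` and that `z ∉ A_t` for one of these `O(t)` sites `z`, and the two events are independent:
`τ_{C t} ≤ C' t τ_t ^ 2`. So if `t τ_t` is small for one `t`, then `τ_t → 0` very fast, and
this is an open condition in `p`; at `p = p_c` this is impossible, hence `τ_t ≥ c / t` for all `t`.
If no rule lies in an open half-plane (equivalently, if all the directions are stable), then the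
lattice points of a suitable large polygon form a finite set which remains healthy for ever if it is
healthy at the beginning, and `p_c = 1`.
-/

open MeasureTheory
open scoped ENNReal

namespace Pool.Agent.Results.MP_28b826_pr.InfiniteMeanTime

open Pool.Agent.U151.UB

/-- **Q2 of MP_28b826_pr.** For every finite collection `U` of finite subsets of `ℤ²` (in
particular for every update family):

* if `0 < p_c(U) < 1` then `ℙ_{p_c}(T > n) ≥ c / n` for all `n ≥ 1` and some `c > 0`, and
  `𝔼_{p_c} T = ∞`;
* if `p_c(U) = 1` then `𝔼_{p_c} T = 0`;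
* `p_c(U) = 1` if and only if all directions are stable;
* if `U` is subcritical and `ℙ_{p_c}([A] = ℤ²) = 1`, then `𝔼_{p_c} T < ∞` if and only if
  `p_c(U) = 1`. -/
theorem result (U : Finset (Finset Site)) :
    (0 < pc U → pc U < 1 →
      (∃ c : ℝ, 0 < c ∧ ∀ n : ℕ, 1 ≤ n →
        c / n ≤ (law (critical U)).real {ω | (n : ℝ≥0∞) < T U ω}) ∧
      ∫⁻ ω, T U ω ∂(law (critical U)) = ∞) ∧
    (pc U = 1 → ∫⁻ ω, T U ω ∂(law (critical U)) = 0) ∧
    (pc U = 1 ↔ ∀ θ : ℝ, Stable U θ) ∧
    (Subcritical U → law (critical U) (percolation U) = 1 →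
      (∫⁻ ω, T U ω ∂(law (critical U)) < ∞ ↔ pc U = 1)) := by
  have hset : ∀ n : ℕ, {ω : Site → Bool | (n : ℝ≥0∞) < T U ω} =
      {ω | (0 : Site) ∉ infected U (start ω) n} := by
    intro n
    ext ω
    exact lt_T_iff
  -- the degenerate case
  have hdeg : pc U = 1 ↔ ∀ θ : ℝ, Stable U θ := by
    constructor
    · intro h1
      by_contra hcon
      push Not at hcon
      obtain ⟨θ, hθ⟩ := hcon
      obtain ⟨X, w, B, hG⟩ := exists_good_of_unstable hθ
      exact absurd h1 hG.pc_lt_one.ne
    · exact pc_eq_one_of_stable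
  have hmain : 0 < pc U → pc U < 1 →
      (∃ c : ℝ, 0 < c ∧ ∀ n : ℕ, 1 ≤ n →
        c / n ≤ (law (critical U)).real {ω | (n : ℝ≥0∞) < T U ω}) ∧
      ∫⁻ ω, T U ω ∂(law (critical U)) = ∞ := by
    intro h0 h1
    have hun : ∃ θ : ℝ, ¬ Stable U θ := by
      by_contra hcon
      push Not at hcon
      exact absurd (hdeg.2 hcon) h1.ne
    obtain ⟨θ, hθ⟩ := hun
    obtain ⟨X, w, B, hG⟩ := exists_good_of_unstable hθ
    have hB : (0 : ℝ) < B := by exact_mod_cast hG.pos
    have hc : 0 < 1 / (28 * (B : ℝ) ^ 6) := by positivity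
    have hlow : ∀ n : ℕ, 1 ≤ n → 1 / (28 * (B : ℝ) ^ 6) / n ≤ tau U (critical U) n :=
      fun n hn => hG.tau_lower h0 hn
    refine ⟨⟨_, hc, fun n hn => ?_⟩, lintegral_T_top hc hlow⟩
    rw [hset n]
    exact hlow n hn
  have hone : pc U = 1 → ∫⁻ ω, T U ω ∂(law (critical U)) = 0 := by
    intro h1
    have : critical U = 1 := Subtype.ext h1
    rw [this]
    exact lintegral_T_one
  refine ⟨hmain, hone, hdeg, fun hsub hperc => ⟨fun hlt => ?_, fun h1 => ?_⟩⟩
  · by_contra hne
    have h1 : pc U < 1 := lt_of_le_of_ne (pc_mem U).2 hne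
    exact absurd (hmain (pc_pos hsub hperc) h1).2 hlt.ne
  · rw [hone h1]
    exact ENNReal.zero_lt_top

end Pool.Agent.Results.MP_28b826_pr.InfiniteMeanTime
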